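import Pool.Agent.HLIN.Steps

/-!
helper7, note 3217, part 4: the friendship count.
-/

set_option autoImplicit false

namespace Pool.Agent.HLIN

open Pool.Agent.RFT

open scoped Classical in
section

variable {V B : Type} [AddCommGroup V] [Module (ZMod 2) V] [AddCommGroup B] [Module (ZMod 2) B]
variable [Fintype V]

/-- the geometry obtained in part 3 -/
structure Geo (q : V →ₗ[ZMod 2] V →ₗ[ZMod 2] B) (e : B) (S : Finset V) : Prop where
  hq : LinkedAlt q
  ne : e ≠ 0
  nonempty : S.Nonempty
  mem : ∀ x, x ∈ S ↔ ∃ u, q x u = e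
  cov : ∀ v, ∃ s ∈ S, q s v = 0
  uniq : ∀ v, v ≠ 0 → ∀ s ∈ S, ∀ t ∈ S, q s v = 0 → q t v = 0 → s = t

/-- neighbours -/
noncomputable def N (q : V →ₗ[ZMod 2] V →ₗ[ZMod 2] B) (e : B) (s : V) : Finset V :=
  Finset.univ.filter fun u => q s u = e

/-- `|V_s|` -/
noncomputable def dg (q : V →ₗ[ZMod 2] V →ₗ[ZMod 2] B) (s : V) : ℕ := (N q 0 s).card

variable {q : V →ₗ[ZMod 2] V →ₗ[ZMod 2] B} {e : B} {S : Finset V}

theorem mem_N {s u : V} : u ∈ N q e s ↔ q s u = e := by
  unfold N
  rw [Finset.mem_filter]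
  exact ⟨fun h => h.2, fun h => ⟨Finset.mem_univ _, h⟩⟩

theorem card_N {s u : V} (h : q s u = e) : (N q e s).card = dg q s := by
  unfold dg
  have : N q e s = (N q 0 s).image (fun k => u + k) := by
    ext v
    rw [Finset.mem_image, mem_N]
    constructor
    · intro hv
      refine ⟨u + v, ?_, ?_⟩
      · rw [mem_N, map_add, h, hv, dd]
      · rw [← add_assoc, dd, zero_add]
    · rintro ⟨k, hk, rfl⟩
      rw [mem_N] at hk
      rw [map_add, h, hk, add_zero]
  rw [this, Finset.card_image_of_injective _ (add_right_injective u)]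

theorem dg_pos (s : V) : 0 < dg q s := by
  apply Finset.card_pos.2
  exact ⟨0, by rw [mem_N, map_zero]⟩

theorem dg_pow (s : V) : ∃ a : ℕ, dg q s = 2 ^ a := by
  have : Module.Finite (ZMod 2) (LinearMap.ker (q s)) := Module.Finite.of_finite
  refine ⟨Module.finrank (ZMod 2) (LinearMap.ker (q s)), ?_⟩
  have h1 := Module.natCard_eq_pow_finrank (K := ZMod 2) (V := LinearMap.ker (q s))
  rw [Nat.card_zmod] at h1
  rw [← h1]
  unfold dg
  have h3 : ((LinearMap.ker (q s) : Submodule (ZMod 2) V) : Set V) =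
      ((N q 0 s : Finset V) : Set V) := by
    ext v
    rw [Finset.mem_coe, mem_N]
    exact Iff.rfl
  rw [← Set.ncard_coe_finset, ← h3]
  rfl

theorem card_pow : ∃ a : ℕ, Fintype.card V = 2 ^ a := by
  have : Module.Finite (ZMod 2) V := Module.Finite.of_finite
  refine ⟨Module.finrank (ZMod 2) V, ?_⟩
  have h1 := Module.natCard_eq_pow_finrank (K := ZMod 2) (V := V)
  rw [Nat.card_zmod, Nat.card_eq_fintype_card] at h1
  exact h1

/-- `|V| = 2 |V_b|` gives rank one -/
theorem rank_one {b : V} (hb : b ≠ 0) (h : Fintype.card V ≤ 2 * dg q b) : RankOne q := by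
  refine ⟨b, hb, fun v w => ?_⟩
  by_contra hn
  push Not at hn
  obtain ⟨h1, h2, h3⟩ := hn
  have e1 : (N q (q b v) b).card = dg q b := card_N rfl
  have e2 : (N q (q b w) b).card = dg q b := card_N rfl
  have hvw : q b v ≠ q b w := by
    intro h0
    apply h3
    rw [map_add, h0, dd]
  have d1 : Disjoint (N q 0 b) (N q (q b v) b) := by
    rw [Finset.disjoint_left]
    intro x hx hx'
    rw [mem_N] at hx hx'
    exact h1 (by rw [← hx', hx])
  have d2 : Disjoint (N q 0 b ∪ N q (q b v) b) (N q (q b w) b) := by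
    rw [Finset.disjoint_left]
    intro x hx hx'
    rw [mem_N] at hx'
    rw [Finset.mem_union, mem_N, mem_N] at hx
    rcases hx with hx | hx
    · exact h2 (by rw [← hx', hx])
    · exact hvw (by rw [← hx', hx])
  have h4 : ((N q 0 b ∪ N q (q b v) b) ∪ N q (q b w) b).card ≤ Fintype.card V :=
    Finset.card_le_univ _
  rw [Finset.card_union_of_disjoint d2, Finset.card_union_of_disjoint d1, e1, e2] at h4
  have h5 : (N q 0 b).card = dg q b := rfl
  have h6 := dg_pos (q := q) b
  omega

namespace Geo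

variable (g : Geo q e S)
include g

theorem symm (x y : V) : q x y = q y x := g.hq.symm x y

theorem N_sub (s : V) : N q e s ⊆ S := by
  intro u hu
  rw [mem_N] at hu
  rw [g.mem]
  exact ⟨s, by rw [g.symm, hu]⟩

theorem ne0 {s : V} (hs : s ∈ S) : s ≠ 0 := by
  rintro rfl
  obtain ⟨u, hu⟩ := (g.mem 0).1 hs
  rw [map_zero, LinearMap.zero_apply] at hu
  exact g.ne hu.symm

theorem deg {s : V} (hs : s ∈ S) : (N q e s).card = dg q s := by
  obtain ⟨u, hu⟩ := (g.mem s).1 hs
  exact card_N hu

theorem common {s t : V} (hs : s ∈ S) (ht : t ∈ S) : ∃ u, q s u = e ∧ q t u = e := by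
  obtain ⟨a, ha⟩ := (g.mem s).1 hs
  obtain ⟨b, hb⟩ := (g.mem t).1 ht
  obtain ⟨u, h1, h2⟩ := g.hq.link s a t b (by rw [ha, hb])
  exact ⟨u, by rw [h1, ha], by rw [h2, ha]⟩

theorem common_uniq {s t u u' : V} (hs : s ∈ S) (ht : t ∈ S) (hst : s ≠ t) (h1 : q s u = e)
    (h2 : q t u = e) (h3 : q s u' = e) (h4 : q t u' = e) : u = u' := by
  by_contra hne
  apply hst
  refine g.uniq (u + u') ?_ s hs t ht ?_ ?_
  · intro h0
    exact hne (eq_of_add_zero h0)
  · rw [map_add, h1, h3, dd]
  · rw [map_add, h2, h4, dd]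

/-- friends of friends -/
theorem two_paths {s : V} (hs : s ∈ S) :
    S.card = 1 + ∑ u ∈ N q e s, (dg q u - 1) := by
  have h1 : S.erase s = (N q e s).biUnion fun u => (N q e u).erase s := by
    ext t
    rw [Finset.mem_erase, Finset.mem_biUnion]
    constructor
    · rintro ⟨hts, ht⟩
      obtain ⟨u, h1, h2⟩ := g.common hs ht
      refine ⟨u, mem_N.2 h1, ?_⟩
      rw [Finset.mem_erase, mem_N, g.symm]
      exact ⟨hts, h2⟩
    · rintro ⟨u, hu, ht⟩
      rw [Finset.mem_erase] at ht
      exact ⟨ht.1, g.N_sub u ht.2⟩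
  have h2 : (S.erase s).card = ∑ u ∈ N q e s, ((N q e u).erase s).card := by
    rw [h1]
    apply Finset.card_biUnion
    intro u hu u' hu' huu
    rw [Function.onFun, Finset.disjoint_left]
    intro t ht ht'
    rw [Finset.mem_erase, mem_N] at ht ht'
    rw [Finset.mem_coe, mem_N] at hu hu'
    apply huu
    refine g.common_uniq hs (t := t) ?_ (Ne.symm ht.1) hu (by rw [g.symm, ht.2]) hu'
      (by rw [g.symm, ht'.2])
    rw [g.mem]
    exact ⟨u, by rw [g.symm, ht.2]⟩
  have h3 : ∑ u ∈ N q e s, ((N q e u).erase s).card = ∑ u ∈ N q e s, (dg q u - 1) := by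
    apply Finset.sum_congr rfl
    intro u hu
    have hu' : q u s = e := by rw [g.symm]; exact mem_N.1 hu
    rw [Finset.card_erase_of_mem (mem_N.2 hu'), g.deg (g.N_sub s hu)]
  rw [← h3, ← h2, Finset.card_erase_of_mem hs]
  have := Finset.card_pos.2 ⟨s, hs⟩
  omega

/-- the partition -/
theorem part : Fintype.card V = 1 + ∑ s ∈ S, (dg q s - 1) := by
  have h1 : (Finset.univ : Finset V).erase 0 = S.biUnion fun s => (N q 0 s).erase 0 := by
    ext v
    rw [Finset.mem_erase, Finset.mem_biUnion]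
    constructor
    · rintro ⟨hv, -⟩
      obtain ⟨s, hs, h1⟩ := g.cov v
      refine ⟨s, hs, ?_⟩
      rw [Finset.mem_erase, mem_N]
      exact ⟨hv, h1⟩
    · rintro ⟨s, hs, hv⟩
      rw [Finset.mem_erase] at hv
      exact ⟨hv.1, Finset.mem_univ _⟩
  have h2 : ((Finset.univ : Finset V).erase 0).card = ∑ s ∈ S, ((N q 0 s).erase 0).card := by
    rw [h1]
    apply Finset.card_biUnion
    intro s hs t ht hst
    rw [Function.onFun, Finset.disjoint_left]
    intro v hv hv'
    rw [Finset.mem_erase, mem_N] at hv hv'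
    exact hst (g.uniq v hv.1 s hs t ht hv.2 hv'.2)
  have h3 : ∑ s ∈ S, ((N q 0 s).erase 0).card = ∑ s ∈ S, (dg q s - 1) := by
    apply Finset.sum_congr rfl
    intro s _
    rw [Finset.card_erase_of_mem (mem_N.2 (map_zero _))]
    rfl
  rw [← h3, ← h2, Finset.card_erase_of_mem (Finset.mem_univ _), Finset.card_univ]
  have : 0 < Fintype.card V := Fintype.card_pos_iff.2 ⟨0⟩
  omega

/-- nonadjacent slots have equal degrees -/
theorem deg_le {s t : V} (hs : s ∈ S) (ht : t ∈ S) (hst : s ≠ t) (hna : q s t ≠ e) :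
    dg q s ≤ dg q t := by
  rw [← g.deg hs, ← g.deg ht]
  have h1 : ∀ u ∈ N q e s, ∃ w, q u w = e ∧ q t w = e := fun u hu =>
    g.common (g.N_sub s hu) ht
  choose! f hf1 hf2 using h1
  apply Finset.card_le_card_of_injOn f
  · intro u hu
    rw [Finset.mem_coe, mem_N]
    exact hf2 u hu
  · intro u hu u' hu' huu
    rw [Finset.mem_coe] at hu hu'
    have h3 := hf1 u hu
    have h4 := hf1 u' hu'
    have h5 := hf2 u hu
    rw [← huu] at h4
    have hfs : f u ≠ s := by
      intro h0
      rw [h0, g.symm] at h5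
      exact hna h5
    have hfS : f u ∈ S := (g.mem _).2 ⟨u, by rw [g.symm, h3]⟩
    exact g.common_uniq hfS hs hfs (by rw [g.symm, h3]) (mem_N.1 hu) (by rw [g.symm, h4])
      (mem_N.1 hu')

theorem deg_eq {s t : V} (hs : s ∈ S) (ht : t ∈ S) (hst : s ≠ t) (hna : q s t ≠ e) :
    dg q s = dg q t :=
  le_antisymm (g.deg_le hs ht hst hna) (g.deg_le ht hs hst.symm (by rw [g.symm]; exact hna))

/-- politician or regular -/
theorem dich : (∃ b ∈ S, ∀ t ∈ S, t ≠ b → q b t = e) ∨ ∀ s ∈ S, ∀ t ∈ S, dg q s = dg q t := by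
  by_cases hp : ∃ b ∈ S, ∀ t ∈ S, t ≠ b → q b t = e
  · exact Or.inl hp
  right
  push Not at hp
  intro s hs t ht
  by_cases hst : s = t
  · rw [hst]
  by_cases hadj : q s t = e
  swap
  · exact g.deg_eq hs ht hst hadj
  obtain ⟨s', hs', h1, h2⟩ := hp s hs
  obtain ⟨t', ht', h3, h4⟩ := hp t ht
  have ds : dg q s = dg q s' := g.deg_eq hs hs' h1.symm h2
  have dt : dg q t = dg q t' := g.deg_eq ht ht' h3.symm h4
  have hs't : s' ≠ t := by
    rintro rfl
    exact h2 hadj
  have ht's : t' ≠ s := by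
    rintro rfl
    exact h4 (by rw [g.symm]; exact hadj)
  by_cases h5 : q s' t = e
  swap
  · rw [ds]
    exact g.deg_eq hs' ht hs't h5
  by_cases h6 : q t' s = e
  swap
  · rw [dt]
    exact (g.deg_eq ht' hs ht's h6).symm
  have hs't' : s' ≠ t' := by
    rintro rfl
    exact h2 (by rw [g.symm]; exact h6)
  by_cases h7 : q s' t' = e
  swap
  · rw [ds, dt]
    exact g.deg_eq hs' ht' hs't' h7
  -- `s, s'` have the common neighbours `t, t'`
  exfalso
  exact h3 (g.common_uniq hs hs' h1.symm hadj h5 (by rw [g.symm]; exact h6) h7).symm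

/-- **the count** -/
theorem final : RankOne q := by
  obtain ⟨s₀, hs₀⟩ := g.nonempty
  have hpart := g.part
  rcases g.dich with ⟨b, hb, hpol⟩ | hreg
  · -- a politician
    have hN : N q e b = S.erase b := by
      ext t
      rw [mem_N, Finset.mem_erase]
      constructor
      · intro ht
        refine ⟨?_, g.N_sub b (mem_N.2 ht)⟩
        rintro rfl
        rw [g.hq.alt] at ht
        exact g.ne ht.symm
      · exact fun ht => hpol t ht.2 ht.1
    have hdb : dg q b + 1 = S.card := by
      rw [← g.deg hb, hN, Finset.card_erase_of_mem hb]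
      have := Finset.card_pos.2 ⟨b, hb⟩
      omega
    have hd2 : ∀ t ∈ S.erase b, dg q t - 1 = 1 := by
      intro t ht
      rw [Finset.mem_erase] at ht
      obtain ⟨htb, ht⟩ := ht
      obtain ⟨u, hu1, hu2⟩ := g.common ht hb
      have hbt : q t b = e := by rw [g.symm]; exact hpol t ht htb
      have hub : u ≠ b := by
        rintro rfl
        rw [g.hq.alt] at hu2
        exact g.ne hu2.symm
      have : N q e t = {b, u} := by
        ext w
        rw [mem_N, Finset.mem_insert, Finset.mem_singleton]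
        constructor
        · intro hw
          by_cases hwb : w = b
          · exact Or.inl hwb
          · right
            have hwS : w ∈ S := g.N_sub t (mem_N.2 hw)
            exact g.common_uniq ht hb htb hw (hpol w hwS hwb) hu1 hu2
        · rintro (rfl | rfl)
          · exact hbt
          · exact hu1
      rw [← g.deg ht, this, Finset.card_pair hub.symm]
    have h1 : ∑ s ∈ S, (dg q s - 1) = (dg q b - 1) + (S.erase b).card := by
      rw [← Finset.add_sum_erase S _ hb, Finset.sum_congr rfl hd2, Finset.sum_const,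
        smul_eq_mul, mul_one]
    rw [h1, Finset.card_erase_of_mem hb] at hpart
    have h2 := dg_pos (q := q) b
    exact rank_one (g.ne0 hb) (by omega)
  · -- regular
    obtain ⟨j, hj⟩ := dg_pow (q := q) s₀
    obtain ⟨k, hk⟩ : ∃ k, k = dg q s₀ := ⟨_, rfl⟩
    rw [← hk] at hj
    have h1 := g.two_paths hs₀
    have h2 : ∑ u ∈ N q e s₀, (dg q u - 1) = k * (k - 1) := by
      rw [Finset.sum_congr rfl (g := fun _ => k - 1) (fun u hu => by
        rw [hreg u (g.N_sub s₀ hu) s₀ hs₀, ← hk]), Finset.sum_const, g.deg hs₀, ← hk,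
        smul_eq_mul]
    have h3 : ∑ s ∈ S, (dg q s - 1) = S.card * (k - 1) := by
      rw [Finset.sum_congr rfl (g := fun _ => k - 1) (fun u hu => by
        rw [hreg u hu s₀ hs₀, ← hk]), Finset.sum_const, smul_eq_mul]
    rw [h2] at h1
    rw [h3, h1] at hpart
    have hk2 : 2 ≤ k := by
      have : ({0, s₀} : Finset V) ⊆ N q 0 s₀ := by
        intro x hx
        rw [Finset.mem_insert, Finset.mem_singleton] at hx
        rcases hx with rfl | rfl
        · rw [mem_N, map_zero]
        · rw [mem_N, g.hq.alt]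
      have h4 := Finset.card_le_card this
      rw [Finset.card_pair (g.ne0 hs₀).symm] at h4
      rw [hk]
      exact h4
    obtain ⟨n, hn⟩ := card_pow (V := V)
    by_cases hk3 : k = 2
    · rw [hk3] at hpart
      apply rank_one (g.ne0 hs₀)
      rw [← hk, hk3, hpart]
    · exfalso
      -- `|V| = k (k^2 - 2 k + 2)`
      obtain ⟨m, rfl⟩ : ∃ m, k = m + 1 := ⟨k - 1, by omega⟩
      rw [Nat.add_sub_cancel] at hpart
      have h5 : Fintype.card V = (m + 1) * (m * m + 1) := by
        rw [hpart]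
        ring
      have h6 : (m * m + 1) ∣ 2 ^ n := by
        rw [← hn, h5]
        exact Dvd.intro_left _ rfl
      obtain ⟨i, -, hi⟩ := (Nat.dvd_prime_pow Nat.prime_two).1 h6
      have hj1 : 2 ≤ j := by
        by_contra hno
        have : j = 0 ∨ j = 1 := by omega
        rcases this with rfl | rfl
        · omega
        · exact hk3 hj
      obtain ⟨j', rfl⟩ : ∃ j', j = j' + 2 := ⟨j - 2, by omega⟩
      have hm3 : 3 ≤ m := by
        have : 4 ≤ m + 1 := by
          rw [hj, pow_add]
          have := Nat.one_le_two_pow (n := j')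
          omega
        omega
      have hi2 : 2 ≤ i := by
        by_contra hno
        have : i = 0 ∨ i = 1 := by omega
        rcases this with rfl | rfl
        · nlinarith
        · nlinarith
      obtain ⟨i', rfl⟩ : ∃ i', i = i' + 2 := ⟨i - 2, by omega⟩
      have h7 : m * m + 1 = 4 * 2 ^ i' := by
        rw [hi, pow_add]
        ring
      have h8 : m + 1 = 4 * 2 ^ j' := by
        rw [hj, pow_add]
        ring
      have h9 : m % 4 = 3 := by omega
      have h10 : m * m % 4 = 1 := by
        rw [Nat.mul_mod, h9]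
      omega

end Geo

end

end Pool.Agent.HLIN
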