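import Pool.Agent.RFT.Bridge
import Pool.Agent.ETC.QSat2

/-!
helper7, note 3217 (Lipschitz maps), part 1: definitions, derivatives, self-adjoint operators.

`q : V × V → B` is a linked alternating bilinear map over `F_2`, `V` finite, nondegenerate.
A map `G : V → B` is Lipschitz if `G 0 = 0` and `G v + G w ∈ q (v + w, V)` for all `v, w`.
-/

set_option autoImplicit false

namespace Pool.Agent.HLIN

open Pool.Agent.RFT

variable {V B : Type} [AddCommGroup V] [Module (ZMod 2) V] [AddCommGroup B] [Module (ZMod 2) B]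

theorem dd {M : Type} [AddCommGroup M] [Module (ZMod 2) M] (x : M) : x + x = 0 :=
  ZModModule.add_self x

/-- Lipschitz maps -/
structure Lip (q : V →ₗ[ZMod 2] V →ₗ[ZMod 2] B) (G : V → B) : Prop where
  zero : G 0 = 0
  add : ∀ v w, ∃ u, q (v + w) u = G v + G w

/-- nondegenerate -/
def Nd (q : V →ₗ[ZMod 2] V →ₗ[ZMod 2] B) : Prop := ∀ x, (∀ v, q x v = 0) → x = 0

/-- every symbol `e ≠ 0` has a Lipschitz map which is `e` on the slots of `e` -/
def LIN (q : V →ₗ[ZMod 2] V →ₗ[ZMod 2] B) : Prop :=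
  ∀ x y, q x y ≠ 0 → ∃ G, Lip q G ∧ ∀ z u, q z u = q x y → G z = q x y

/-- an element of rank one -/
def RankOne (q : V →ₗ[ZMod 2] V →ₗ[ZMod 2] B) : Prop :=
  ∃ x, x ≠ 0 ∧ ∀ v w, q x v = 0 ∨ q x w = 0 ∨ q x (v + w) = 0

/-- additive -/
def Ad (G : V → B) : Prop := ∀ v w, G (v + w) = G v + G w

/-- the derivative -/
def De (G : V → B) (x v : V) : B := G (v + x) + G v + G x

variable {q : V →ₗ[ZMod 2] V →ₗ[ZMod 2] B}

theorem Lip.mem {G : V → B} (h : Lip q G) (v : V) : ∃ u, q v u = G v := by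
  obtain ⟨u, hu⟩ := h.add v 0
  exact ⟨u, by rw [add_zero, h.zero, add_zero] at hu; exact hu⟩

/-- a Lipschitz map is inner on every pair -/
theorem Lip.pair (hq : LinkedAlt q) {G : V → B} (h : Lip q G) (v w : V) :
    ∃ z, q v z = G v ∧ q w z = G w := by
  obtain ⟨a, ha⟩ := h.mem v
  obtain ⟨b, hb⟩ := h.mem w
  obtain ⟨c, hc⟩ := h.add v w
  have h1 : q v (a + c) = q w (b + c) := by
    rw [map_add, map_add, ha, hb]
    rw [map_add, LinearMap.add_apply] at hc
    have h2 : G v + q v c + (G w + q w c) = 0 := by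
      have : G v + q v c + (G w + q w c) = (q v c + q w c) + (G v + G w) := by abel
      rw [this, hc, dd]
    exact eq_of_add_zero h2
  obtain ⟨z, h2, h3⟩ := hq.link _ _ _ _ h1
  refine ⟨z + c, ?_, ?_⟩
  · rw [map_add, h2, map_add, ha, add_assoc, dd, add_zero]
  · rw [map_add, h3, h1, map_add, hb, add_assoc, dd, add_zero]

theorem Lip.der {G : V → B} (h : Lip q G) (x : V) : Lip q (De G x) := by
  refine ⟨?_, fun v w => ?_⟩
  · unfold De
    rw [zero_add, h.zero, add_zero, dd]
  · obtain ⟨u, hu⟩ := h.add (v + x) (w + x)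
    obtain ⟨u', hu'⟩ := h.add v w
    have e1 : v + x + (w + x) = v + w := by
      have : v + x + (w + x) = (v + w) + (x + x) := by abel
      rw [this, dd, add_zero]
    rw [e1] at hu
    refine ⟨u + u', ?_⟩
    rw [map_add, hu, hu']
    unfold De
    have : G (v + x) + G v + G x + (G (w + x) + G w + G x) =
        G (v + x) + G (w + x) + (G v + G w) + (G x + G x) := by abel
    rw [this, dd, add_zero]

/-- periods -/
def Per (G : V → B) : Set V := {k | ∀ v, G (v + k) = G v}

theorem per_sub {G : V → B} (x : V) : Per G ⊆ Per (De G x) := by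
  intro k hk v
  unfold De
  have e1 : v + k + x = (v + x) + k := by abel
  rw [e1, hk (v + x), hk v]

theorem per_self {G : V → B} (h0 : G 0 = 0) (x : V) : x ∈ Per (De G x) := by
  intro v
  unfold De
  rw [add_assoc v x x, dd, add_zero]
  have : G v + G (v + x) + G x = G (v + x) + G v + G x := by abel
  exact this

theorem ad_of_per {G : V → B} (h0 : G 0 = 0) {x : V} (hx : x ∈ Per G) : De G x = fun _ => 0 := by
  funext v
  unfold De
  have h1 := hx 0
  rw [zero_add] at h1
  rw [hx v, h1, h0, dd, add_zero]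

/-- **a last nonadditive derivative** -/
theorem exists_quad [Finite V] : ∀ (n : ℕ) (G : V → B), Lip q G → ¬ Ad G →
    Nat.card V - (Per G).ncard = n →
    ∃ G', Lip q G' ∧ ¬ Ad G' ∧ (∀ x, Ad (De G' x)) ∧
      ((¬ ∀ x, Ad (De G x)) → ∃ k, k ≠ 0 ∧ k ∈ Per G') ∧ Per G ⊆ Per G' := by
  intro n
  induction n using Nat.strong_induction_on with
  | _ n ih =>
    intro G hG hA hn
    by_cases hD : ∀ x, Ad (De G x)
    · exact ⟨G, hG, hA, hD, fun h => absurd hD h, subset_rfl⟩
    push Not at hD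
    obtain ⟨x, hx⟩ := hD
    have hxP : x ∉ Per G := by
      intro h
      apply hx
      rw [ad_of_per hG.zero h]
      intro v w
      exact (add_zero 0).symm
    have hx0 : x ≠ 0 := by
      rintro rfl
      apply hxP
      intro v
      rw [add_zero]
    have hss : Per G ⊂ Per (De G x) :=
      ⟨per_sub x, fun h => hxP (h (per_self hG.zero x))⟩
    have hfin : (Per (De G x)).Finite := Set.toFinite _
    have hlt : (Per G).ncard < (Per (De G x)).ncard := Set.ncard_lt_ncard hss hfin
    have hle : (Per (De G x)).ncard ≤ Nat.card V := by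
      rw [← Set.ncard_univ]
      exact Set.ncard_le_ncard (Set.subset_univ _) (Set.toFinite _)
    obtain ⟨G', h1, h2, h3, -, h5⟩ := ih (Nat.card V - (Per (De G x)).ncard) (by omega)
      (De G x) (hG.der x) hx rfl
    exact ⟨G', h1, h2, h3, fun _ => ⟨x, hx0, h5 (per_self hG.zero x)⟩, hss.1.trans h5⟩

/-- the self-adjoint operators of the note -/
structure Tau (q : V →ₗ[ZMod 2] V →ₗ[ZMod 2] B) (τ : V →ₗ[ZMod 2] V) : Prop where
  sa : ∀ x y, q (τ x) y = q (τ y) x
  alt : ∀ x, q (τ x) x = 0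

theorem nd_eq (hn : Nd q) {s t : V} (h : ∀ v, q s v = q t v) : s = t := by
  apply eq_of_add_zero
  apply hn
  intro v
  rw [map_add, LinearMap.add_apply, h v, dd]

/-- an additive Lipschitz map is inner -/
theorem inner [Finite V] (hq : LinkedAlt q) {G : V → B} (hG : Lip q G) (hA : Ad G) :
    ∃ t, ∀ v, G v = q v t := by
  have hP : ETC.Pairwise2 hq.toQData G := by
    intro x x'
    obtain ⟨z, h1, h2⟩ := hG.pair hq x x'
    refine ⟨z, h1.symm, h2.symm, ?_⟩
    change G (x + x') = q (x + x') z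
    rw [map_add, LinearMap.add_apply, h1, h2, hA]
  obtain ⟨p, hp⟩ := ETC.saturation hP
  exact ⟨p, hp⟩

theorem add_smul_lin {M N : Type} [AddCommGroup M] [Module (ZMod 2) M] [AddCommGroup N]
    [Module (ZMod 2) N] (f : M → N) (hf : ∀ a b, f (a + b) = f a + f b) :
    ∃ F : M →ₗ[ZMod 2] N, ∀ a, F a = f a := by
  have h0 : f 0 = 0 := by
    have := hf 0 0
    rw [add_zero, dd] at this
    exact this
  refine ⟨{ toFun := f, map_add' := hf, map_smul' := ?_ }, fun a => rfl⟩
  intro c x
  have hc : c = 0 ∨ c = 1 := by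
    revert c
    decide
  rcases hc with rfl | rfl
  · rw [zero_smul, h0, map_zero, zero_smul]
  · rw [one_smul, map_one, one_smul]

/-- **the operator of a quadratic Lipschitz map** -/
theorem exists_tau [Finite V] (hq : LinkedAlt q) (hn : Nd q) {G : V → B} (hG : Lip q G)
    (hD : ∀ x, Ad (De G x)) :
    ∃ τ : V →ₗ[ZMod 2] V, Tau q τ ∧ ∀ x v, De G x v = q (τ x) v := by
  have h1 : ∀ x, ∃ t, ∀ v, De G x v = q t v := by
    intro x
    obtain ⟨t, ht⟩ := inner hq (hG.der x) (hD x)
    exact ⟨t, fun v => by rw [ht v, hq.symm]⟩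
  choose f hf using h1
  have hsym : ∀ x v, De G x v = De G v x := by
    intro x v
    unfold De
    rw [add_comm v x]
    abel
  have hadd : ∀ a b, f (a + b) = f a + f b := by
    intro a b
    apply nd_eq hn
    intro v
    rw [← hf, hsym, hD v a b, map_add, LinearMap.add_apply, ← hf, ← hf, hsym v a, hsym v b]
  obtain ⟨τ, hτ⟩ := add_smul_lin f hadd
  refine ⟨τ, ⟨fun x y => ?_, fun x => ?_⟩, fun x v => by rw [hτ, hf]⟩
  · rw [hτ, hτ, ← hf, ← hf, hsym]
  · rw [hτ, ← hf]
    unfold De
    rw [dd, hG.zero, zero_add, dd]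

end Pool.Agent.HLIN
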