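import Pool.Agent.HLIN.Count

/-!
helper7, note 3217: **a finite linked nondegenerate structure with LIN has an element of rank
one** (no hypothesis `D(e) = V`, no minimality).
-/

set_option autoImplicit false

namespace Pool.Agent.HLIN

open Pool.Agent.RFT

theorem Wd.rank {V B : Type} [AddCommGroup V] [Module (ZMod 2) V] [AddCommGroup B]
    [Module (ZMod 2) B] [Finite V] {q : V →ₗ[ZMod 2] V →ₗ[ZMod 2] B} (w : Wd q)
    (hx : ∃ x : V, x ≠ 0) : RankOne q := by
  classical
  have := Fintype.ofFinite V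
  -- a symbol with the largest number of slots
  obtain ⟨x, hx⟩ := hx
  obtain ⟨y, hy⟩ : ∃ y, q x y ≠ 0 := by
    by_contra hn
    push Not at hn
    exact hx (w.hn x hn)
  have hs : {p : V × V | q p.1 p.2 ≠ 0}.Finite := Set.toFinite _
  obtain ⟨⟨a, b⟩, hab, hmax⟩ := Set.exists_max_image _
    (fun p : V × V => (Sl q (q p.1 p.2)).ncard) hs ⟨(x, y), hy⟩
  obtain ⟨G, hG, hslot⟩ := w.hL a b hab
  have hP : Phi q (q a b) G := ⟨hab, ⟨a, b, rfl⟩, hG, hslot⟩
  have hmax' : ∀ e' : B, e' ≠ 0 → (Sl q e').ncard ≤ (Sl q (q a b)).ncard := by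
    intro e' he'
    by_cases h : ∃ c d, q c d = e'
    · obtain ⟨c, d, rfl⟩ := h
      exact hmax (c, d) he'
    · have : Sl q e' = ∅ := by
        rw [Set.eq_empty_iff_forall_notMem]
        rintro z ⟨u, hu⟩
        exact h ⟨z, u, hu⟩
      rw [this, Set.ncard_empty]
      exact Nat.zero_le _
  have g : Geo q (q a b) (Finset.univ.filter fun x => G x = q a b) := by
    refine ⟨w.hq, hab, ?_, ?_, ?_, ?_⟩
    · exact ⟨a, Finset.mem_filter.2 ⟨Finset.mem_univ _, hslot a b rfl⟩⟩
    · intro x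
      rw [Finset.mem_filter]
      constructor
      · exact fun h => (hP.slot_iff w x).1 h.2
      · exact fun h => ⟨Finset.mem_univ _, (hP.slot_iff w x).2 h⟩
    · intro v
      obtain ⟨s, h1, h2⟩ := hP.ex_slot w v
      exact ⟨s, Finset.mem_filter.2 ⟨Finset.mem_univ _, h1⟩, h2⟩
    · intro v hv s hs t ht h1 h2
      rw [Finset.mem_filter] at hs ht
      exact hP.uniq w hmax' hv hs.2 ht.2 h1 h2
  exact g.final

/-- **LIN gives an element of rank one** -/
theorem main : ∀ (n : ℕ) (V B : Type) [AddCommGroup V] [Module (ZMod 2) V] [AddCommGroup B]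
    [Module (ZMod 2) B] [Finite V] (q : V →ₗ[ZMod 2] V →ₗ[ZMod 2] B), Nat.card V = n →
    LinkedAlt q → Nd q → LIN q → (∃ x : V, x ≠ 0) → RankOne q := by
  intro n
  induction n using Nat.strong_induction_on with
  | _ n ih =>
    intro V B _ _ _ _ _ q hn hq hnd hL hx
    by_contra hr
    apply hr
    refine Wd.rank ⟨hq, hnd, hL, hr, ?_⟩ hx
    rintro τ hτ ⟨k, hk, hk0⟩ x
    by_contra hx
    have hf : Finite (V ⧸ LinearMap.ker τ) :=
      Finite.of_surjective _ (LinearMap.ker τ).mkQ_surjective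
    have hc := card_quo hk hk0
    have h1 := ih _ (hn ▸ hc) (V ⧸ LinearMap.ker τ) B (qt q τ hτ) rfl (qt_linked hq hτ)
      (qt_nd hnd hτ) (qt_LIN hL hτ) ⟨(LinearMap.ker τ).mkQ x, fun h0 => hx (by
        rw [Submodule.mkQ_apply, Submodule.Quotient.mk_eq_zero] at h0
        exact h0)⟩
    exact hr (qt_rank hτ h1)

/-- **LIN gives an element of rank one** -/
theorem rank_one_of_LIN {V B : Type} [AddCommGroup V] [Module (ZMod 2) V] [AddCommGroup B]
    [Module (ZMod 2) B] [Finite V] {q : V →ₗ[ZMod 2] V →ₗ[ZMod 2] B} (hq : LinkedAlt q)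
    (hn : Nd q) (hL : LIN q) (hx : ∃ x : V, x ≠ 0) : RankOne q :=
  main _ V B q rfl hq hn hL hx

end Pool.Agent.HLIN
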