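import Pool.Agent.HLIN.Lip

/-!
helper7, note 3217, part 2: the structure `(V / ker τ, q (τ x) v)`.
-/

set_option autoImplicit false

namespace Pool.Agent.HLIN

open Pool.Agent.RFT

variable {V B : Type} [AddCommGroup V] [Module (ZMod 2) V] [AddCommGroup B] [Module (ZMod 2) B]
variable {q : V →ₗ[ZMod 2] V →ₗ[ZMod 2] B}

theorem Tau.ker {τ : V →ₗ[ZMod 2] V} (hτ : Tau q τ) {x y : V} (hy : τ y = 0) :
    q (τ x) y = 0 := by
  rw [hτ.sa, hy, map_zero, LinearMap.zero_apply]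

/-- first lift -/
def g1 (q : V →ₗ[ZMod 2] V →ₗ[ZMod 2] B) (τ : V →ₗ[ZMod 2] V) :
    (V ⧸ LinearMap.ker τ) →ₗ[ZMod 2] V →ₗ[ZMod 2] B :=
  (LinearMap.ker τ).liftQ (q.comp τ) (by
    intro x hx
    rw [LinearMap.mem_ker] at hx ⊢
    rw [LinearMap.comp_apply, hx, map_zero])

/-- `q (τ x) v` on `V / ker τ` -/
noncomputable def qt (q : V →ₗ[ZMod 2] V →ₗ[ZMod 2] B) (τ : V →ₗ[ZMod 2] V) (hτ : Tau q τ) :
    (V ⧸ LinearMap.ker τ) →ₗ[ZMod 2] (V ⧸ LinearMap.ker τ) →ₗ[ZMod 2] B :=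
  (LinearMap.ker τ).liftQ (g1 q τ).flip (by
    intro y hy
    rw [LinearMap.mem_ker] at hy ⊢
    refine LinearMap.ext fun w => ?_
    obtain ⟨x, rfl⟩ := (LinearMap.ker τ).mkQ_surjective w
    change q (τ x) y = 0
    rw [hτ.sa, hy, map_zero, LinearMap.zero_apply])

theorem qt_mk {τ : V →ₗ[ZMod 2] V} (hτ : Tau q τ) (x y : V) :
    qt q τ hτ ((LinearMap.ker τ).mkQ x) ((LinearMap.ker τ).mkQ y) = q (τ y) x := rfl

theorem qt_linked (h : LinkedAlt q) {τ : V →ₗ[ZMod 2] V} (hτ : Tau q τ) :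
    LinkedAlt (qt q τ hτ) where
  alt w := by
    obtain ⟨x, rfl⟩ := (LinearMap.ker τ).mkQ_surjective w
    rw [qt_mk, hτ.alt]
  link a b c d e := by
    obtain ⟨a, rfl⟩ := (LinearMap.ker τ).mkQ_surjective a
    obtain ⟨b, rfl⟩ := (LinearMap.ker τ).mkQ_surjective b
    obtain ⟨c, rfl⟩ := (LinearMap.ker τ).mkQ_surjective c
    obtain ⟨d, rfl⟩ := (LinearMap.ker τ).mkQ_surjective d
    rw [qt_mk, qt_mk, hτ.sa b a, hτ.sa d c] at e
    obtain ⟨x, h1, h2⟩ := h.link _ _ _ _ e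
    refine ⟨(LinearMap.ker τ).mkQ x, ?_, ?_⟩
    · rw [qt_mk, qt_mk, hτ.sa x a, h1, hτ.sa b a]
    · rw [qt_mk, qt_mk, hτ.sa x c, h2, hτ.sa b a]

theorem qt_nd (hn : Nd q) {τ : V →ₗ[ZMod 2] V} (hτ : Tau q τ) : Nd (qt q τ hτ) := by
  intro w hw
  obtain ⟨x, rfl⟩ := (LinearMap.ker τ).mkQ_surjective w
  have h1 : τ x = 0 := by
    apply hn
    intro v
    have := hw ((LinearMap.ker τ).mkQ v)
    rw [qt_mk, hτ.sa v x] at this
    exact this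
  rw [Submodule.mkQ_apply, Submodule.Quotient.mk_eq_zero]
  exact h1

/-- the map induced by `τ` -/
def tb (τ : V →ₗ[ZMod 2] V) : (V ⧸ LinearMap.ker τ) →ₗ[ZMod 2] V :=
  (LinearMap.ker τ).liftQ τ le_rfl

theorem tb_mk (τ : V →ₗ[ZMod 2] V) (x : V) : tb τ ((LinearMap.ker τ).mkQ x) = τ x := rfl

theorem qt_tb {τ : V →ₗ[ZMod 2] V} (hτ : Tau q τ) (w : V ⧸ LinearMap.ker τ) (y : V) :
    qt q τ hτ w ((LinearMap.ker τ).mkQ y) = q (tb τ w) y := by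
  obtain ⟨x, rfl⟩ := (LinearMap.ker τ).mkQ_surjective w
  rw [qt_mk, tb_mk, hτ.sa]

theorem qt_LIN (hL : LIN q) {τ : V →ₗ[ZMod 2] V} (hτ : Tau q τ) : LIN (qt q τ hτ) := by
  intro x y hxy
  obtain ⟨y, rfl⟩ := (LinearMap.ker τ).mkQ_surjective y
  rw [qt_tb] at hxy
  obtain ⟨G, hG, hs⟩ := hL _ _ hxy
  refine ⟨fun w => G (tb τ w), ⟨?_, fun v w => ?_⟩, fun z u hu => ?_⟩
  · change G (tb τ 0) = 0
    rw [map_zero, hG.zero]
  · obtain ⟨u, hu⟩ := hG.add (tb τ v) (tb τ w)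
    exact ⟨(LinearMap.ker τ).mkQ u, by rw [qt_tb, map_add, hu]⟩
  · obtain ⟨u, rfl⟩ := (LinearMap.ker τ).mkQ_surjective u
    rw [qt_tb, qt_tb] at hu
    rw [qt_tb]
    exact hs _ _ hu

theorem qt_rank {τ : V →ₗ[ZMod 2] V} (hτ : Tau q τ) (h : RankOne (qt q τ hτ)) : RankOne q := by
  obtain ⟨w, hw, h1⟩ := h
  obtain ⟨x, rfl⟩ := (LinearMap.ker τ).mkQ_surjective w
  refine ⟨τ x, fun h0 => hw ?_, fun v v' => ?_⟩
  · rw [Submodule.mkQ_apply, Submodule.Quotient.mk_eq_zero]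
    exact h0
  · have := h1 ((LinearMap.ker τ).mkQ v) ((LinearMap.ker τ).mkQ v')
    rw [← map_add, qt_tb, qt_tb, qt_tb, tb_mk] at this
    exact this

theorem card_quo [Finite V] {τ : V →ₗ[ZMod 2] V} {k : V} (hk : k ≠ 0) (h0 : τ k = 0) :
    Nat.card (V ⧸ LinearMap.ker τ) < Nat.card V := by
  have h1 := Submodule.card_eq_card_quotient_mul_card (LinearMap.ker τ)
  have h2 : 1 < Nat.card (LinearMap.ker τ) := by
    rw [Finite.one_lt_card_iff_nontrivial]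
    exact ⟨⟨k, h0⟩, 0, fun h => hk (congrArg Subtype.val h)⟩
  have hf : Finite (V ⧸ LinearMap.ker τ) :=
    Finite.of_surjective _ (LinearMap.ker τ).mkQ_surjective
  have h3 : 0 < Nat.card (V ⧸ LinearMap.ker τ) := Nat.card_pos
  rw [h1]
  nlinarith

end Pool.Agent.HLIN
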