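import Pool.Agent.HLIN.Quo

/-!
helper7, note 3217, part 3: the maps `φ_e` are quadratic with polar form `q`; the annihilators of
the slots of `e` partition `V - 0`.
-/

set_option autoImplicit false

namespace Pool.Agent.HLIN

open Pool.Agent.RFT

variable {V B : Type} [AddCommGroup V] [Module (ZMod 2) V] [AddCommGroup B] [Module (ZMod 2) B]

/-- the situation of the induction step -/
structure Wd (q : V →ₗ[ZMod 2] V →ₗ[ZMod 2] B) : Prop where
  hq : LinkedAlt q
  hn : Nd q
  hL : LIN q
  hr : ¬ RankOne q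
  ht : ∀ τ : V →ₗ[ZMod 2] V, Tau q τ → (∃ k, k ≠ 0 ∧ τ k = 0) → ∀ x, τ x = 0

/-- a Lipschitz map which is `e` on the slots of `e` -/
structure Phi (q : V →ₗ[ZMod 2] V →ₗ[ZMod 2] B) (e : B) (G : V → B) : Prop where
  ne : e ≠ 0
  ex : ∃ a b, q a b = e
  lip : Lip q G
  slot : ∀ z u, q z u = e → G z = e

variable {q : V →ₗ[ZMod 2] V →ₗ[ZMod 2] B} {e : B} {G : V → B}

theorem Phi.not_ad [Finite V] (h : Phi q e G) (w : Wd q) : ¬ Ad G := by
  intro hA
  obtain ⟨t, ht⟩ := inner w.hq h.lip hA
  obtain ⟨a, b, hab⟩ := h.ex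
  have h1 : q t a = e := by rw [w.hq.symm, ← ht, h.slot a b hab]
  have h2 := h.slot t a h1
  rw [ht, w.hq.alt] at h2
  exact h.ne h2.symm

theorem Phi.der [Finite V] (h : Phi q e G) (w : Wd q) : ∀ x, Ad (De G x) := by
  by_contra hD
  obtain ⟨G', h1, h2, h3, h4, -⟩ := exists_quad _ G h.lip (h.not_ad w) rfl
  obtain ⟨k, hk, hkP⟩ := h4 hD
  obtain ⟨τ, hτ, h5⟩ := exists_tau w.hq w.hn h1 h3
  have h6 : τ k = 0 := by
    apply w.hn
    intro v
    rw [← h5, ad_of_per h1.zero hkP]
  have h7 := w.ht τ hτ ⟨k, hk, h6⟩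
  apply h2
  intro v x
  have h8 := h5 x v
  rw [h7, map_zero, LinearMap.zero_apply] at h8
  unfold De at h8
  have h9 : G' (v + x) + (G' v + G' x) = 0 := by rw [← add_assoc]; exact h8
  exact eq_of_add_zero h9

/-- step (7): the polar form of `φ_e` is `q` -/
theorem Phi.polar [Finite V] (h : Phi q e G) (w : Wd q) (x v : V) :
    G (v + x) = G v + G x + q x v := by
  obtain ⟨τ, hτ, h5⟩ := exists_tau w.hq w.hn h.lip (h.der w)
  have hsy := w.hq.symm
  -- `τ ≠ 0`
  have hne : ∃ x, τ x ≠ 0 := by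
    by_contra hno
    push Not at hno
    apply h.not_ad w
    intro v x
    have h8 := h5 x v
    rw [hno, map_zero, LinearMap.zero_apply] at h8
    unfold De at h8
    have h9 : G (v + x) + (G v + G x) = 0 := by rw [← add_assoc]; exact h8
    exact eq_of_add_zero h9
  -- `τ` is bijective
  have hinj : ∀ k, τ k = 0 → k = 0 := by
    intro k hk
    by_contra hk0
    obtain ⟨x, hx⟩ := hne
    exact hx (w.ht τ hτ ⟨k, hk0, hk⟩ x)
  have hinj' : Function.Injective τ := by
    intro a b hab
    apply eq_of_add_zero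
    apply hinj
    rw [map_add, hab, dd]
  have hsurj : Function.Surjective τ := Finite.surjective_of_injective hinj'
  -- `q (τ x) v = e` if `q x v = e`
  have h6 : ∀ x v, q x v = e → q (τ x) v = e := by
    intro x v hxv
    rw [← h5]
    unfold De
    rw [h.slot x v hxv, h.slot v x (by rw [hsy, hxv]),
      h.slot (v + x) v (by rw [map_add, LinearMap.add_apply, w.hq.alt, zero_add, hxv])]
    rw [dd, zero_add]
  have h7 : ∀ x, (∃ v, q x v = e) → ∀ k, q x k = 0 → q (τ x) k = 0 := by
    rintro x ⟨v, hv⟩ k hk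
    have h8 := h6 x (v + k) (by rw [map_add, hv, hk, add_zero])
    rw [map_add, h6 x v hv] at h8
    exact add_eq_left.1 h8
  have h9 : ∀ x, (∃ v, q x v = e) → τ x = x := by
    intro x hx
    apply nd_eq w.hn
    intro u
    obtain ⟨u', rfl⟩ := hsurj u
    have h10 : q x (τ u') = q (τ x) u' := by rw [hsy, hτ.sa]
    obtain ⟨z, h11, h12⟩ := w.hq.link _ _ _ _ h10
    have h13 := h7 x hx (τ u' + z) (by rw [map_add, h11, dd])
    rw [map_add, h12] at h13
    exact eq_of_add_zero h13
  -- `σ = τ + 1`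
  have hσ : Tau q (τ + LinearMap.id) := by
    refine ⟨fun x y => ?_, fun x => ?_⟩
    · rw [LinearMap.add_apply, LinearMap.add_apply, LinearMap.id_apply, LinearMap.id_apply,
        map_add, map_add, LinearMap.add_apply, LinearMap.add_apply, hτ.sa x y, hsy x y]
    · rw [LinearMap.add_apply, LinearMap.id_apply, map_add, LinearMap.add_apply, hτ.alt,
        w.hq.alt, add_zero]
  obtain ⟨a, b, hab⟩ := h.ex
  have ha0 : a ≠ 0 := by
    rintro rfl
    rw [map_zero, LinearMap.zero_apply] at hab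
    exact h.ne hab.symm
  have h14 := w.ht _ hσ ⟨a, ha0, by
    rw [LinearMap.add_apply, LinearMap.id_apply, h9 a ⟨b, hab⟩, dd]⟩
  have h15 : ∀ x, τ x = x := by
    intro x
    have := h14 x
    rw [LinearMap.add_apply, LinearMap.id_apply] at this
    exact eq_of_add_zero this
  have h16 := h5 x v
  rw [h15] at h16
  unfold De at h16
  have h17 : G (v + x) + (G v + G x + q x v) = 0 := by
    rw [← h16]
    have : G (v + x) + (G v + G x + (G (v + x) + G v + G x)) =
        (G (v + x) + G (v + x)) + (G v + G v) + (G x + G x) := by abel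
    rw [this]
    simp only [dd, add_zero]
  exact eq_of_add_zero h17

theorem Phi.self (h : Phi q e G) (w : Wd q) {x : V} (hx : G x = e) : ∃ u, q x u = e := by
  obtain ⟨u, hu⟩ := h.lip.mem x
  exact ⟨u, by rw [hu, hx]⟩

/-- every `v` is a sum of two slots of `e` -/
theorem Phi.two [Finite V] (h : Phi q e G) (w : Wd q) (v : V) :
    ∃ s, G s = e ∧ G (v + s) = e ∧ q v s = G v := by
  obtain ⟨a, b, hab⟩ := h.ex
  obtain ⟨z, h1, h2⟩ := h.lip.pair w.hq a v
  rw [h.slot a b hab] at h1
  have h3 : G z = e := h.slot z a (by rw [w.hq.symm, h1])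
  refine ⟨z, h3, ?_, h2⟩
  rw [h.polar w, h3, w.hq.symm z v, h2]
  have : G v + e + G v = e + (G v + G v) := by abel
  rw [this, dd, add_zero]

/-- step (8) -/
theorem Phi.zero_eq [Finite V] (h : Phi q e G) (w : Wd q) {k : V} (hk : G k = 0) : k = 0 := by
  have h1 : ∀ y, G y = e → q k y = 0 := by
    intro y hy
    obtain ⟨z, h1, h2⟩ := h.lip.pair w.hq y k
    rw [hy] at h1
    rw [hk] at h2
    have h3 : G (y + k) = e := h.slot (y + k) z (by
      rw [map_add, LinearMap.add_apply, h1, h2, add_zero])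
    rw [h.polar w, hy, hk, add_zero] at h3
    exact add_eq_left.1 h3
  apply w.hn
  intro v
  obtain ⟨s, h2, h3, -⟩ := h.two w v
  have h4 : v = (v + s) + s := by rw [add_assoc, dd, add_zero]
  rw [h4, map_add, h1 _ h3, h1 _ h2, add_zero]

/-- commuting slots are equal -/
theorem Phi.comm_eq [Finite V] (h : Phi q e G) (w : Wd q) {x y : V} (hx : G x = e) (hy : G y = e)
    (hxy : q x y = 0) : x = y := by
  apply eq_of_add_zero
  rw [add_comm]
  apply h.zero_eq w
  rw [h.polar w, hx, hy, hxy, add_zero, dd]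

theorem Phi.slot_iff (h : Phi q e G) (w : Wd q) (x : V) : G x = e ↔ ∃ u, q x u = e :=
  ⟨h.self w, fun ⟨u, hu⟩ => h.slot x u hu⟩

/-- every `v` commutes with a slot of `e` -/
theorem Phi.ex_slot [Finite V] (h : Phi q e G) (w : Wd q) (v : V) :
    ∃ s, G s = e ∧ q s v = 0 := by
  obtain ⟨s, h1, h2, -⟩ := h.two w v
  obtain ⟨u, hu⟩ := h.self w h1
  obtain ⟨u', hu'⟩ := h.self w h2
  obtain ⟨t, h3, h4⟩ := w.hq.link s u (v + s) u' (by rw [hu, hu'])
  rw [hu] at h3 h4
  refine ⟨t, h.slot t s (by rw [w.hq.symm, h3]), ?_⟩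
  rw [map_add, LinearMap.add_apply, h3] at h4
  rw [w.hq.symm]
  exact add_eq_right.1 h4

/-- common slots -/
theorem Phi.common (h : Phi q e G) (w : Wd q) {x y : V} (hx : G x = e) (hy : G y = e) :
    ∃ u, q x u = e ∧ q y u = e := by
  obtain ⟨a, ha⟩ := h.self w hx
  obtain ⟨b, hb⟩ := h.self w hy
  obtain ⟨u, h1, h2⟩ := w.hq.link x a y b (by rw [ha, hb])
  exact ⟨u, by rw [h1, ha], by rw [h2, ha]⟩

/-- the slots of `e` -/
def Sl (q : V →ₗ[ZMod 2] V →ₗ[ZMod 2] B) (e : B) : Set V := {x | ∃ u, q x u = e}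

/-- `φ_e` is injective on the complement of `S_e` if `|S_e|` is maximal -/
theorem Phi.inj [Finite V] (h : Phi q e G) (w : Wd q)
    (hmax : ∀ e' : B, e' ≠ 0 → (Sl q e').ncard ≤ (Sl q e).ncard) {c c' : V} (hc : G c ≠ e)
    (hc' : G c' ≠ e) (hcc : G c = G c') : c = c' := by
  have key : ∀ c, G c ≠ e → Sl q (e + G c) = (fun y => c + y) '' Sl q e := by
    intro c hc
    have h0 : e + G c ≠ 0 := fun h0 => hc (eq_of_add_zero h0).symm
    symm
    apply Set.eq_of_subset_of_ncard_le
    · rintro _ ⟨y, hy, rfl⟩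
      have hy' : G y = e := (h.slot_iff w y).2 hy
      obtain ⟨z, h1, h2⟩ := h.lip.pair w.hq y c
      refine ⟨z, ?_⟩
      change q (c + y) z = _
      rw [map_add, LinearMap.add_apply, h1, h2, hy', add_comm]
    · rw [Set.ncard_image_of_injective _ (add_right_injective c)]
      exact hmax _ h0
    · exact Set.toFinite _
  have h1 : (fun y => c + y) '' Sl q e = (fun y => c' + y) '' Sl q e := by
    rw [← key c hc, ← key c' hc', hcc]
  have hk : ∀ y, G y = e → q (c + c') y = G (c + c') := by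
    intro y hy
    have hyS : y ∈ Sl q e := (h.slot_iff w y).1 hy
    have h2 : c + y ∈ (fun y => c' + y) '' Sl q e := by
      rw [← h1]
      exact ⟨y, hyS, rfl⟩
    obtain ⟨y', hy', h3⟩ := h2
    have h4 : y + (c + c') = y' := by
      change c' + y' = c + y at h3
      have : y + (c + c') = (c + y) + c' := by abel
      rw [this, ← h3]
      have : c' + y' + c' = y' + (c' + c') := by abel
      rw [this, dd, add_zero]
    have h5 : G (y + (c + c')) = e := by rw [h4]; exact (h.slot_iff w y').2 hy'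
    rw [h.polar w, hy] at h5
    have h6 : G (c + c') + q (c + c') y = 0 := by
      rw [add_assoc] at h5
      exact add_eq_left.1 h5
    exact (eq_of_add_zero h6).symm
  apply eq_of_add_zero
  apply h.zero_eq w
  obtain ⟨a, b, hab⟩ := h.ex
  have ha : G a = e := h.slot a b hab
  have hb : G b = e := h.slot b a (by rw [w.hq.symm, hab])
  have hb' : G (a + b) = e := h.slot (a + b) b (by
    rw [map_add, LinearMap.add_apply, w.hq.alt, add_zero, hab])
  have h7 := hk _ hb'
  rw [map_add, hk a ha, hk b hb, dd] at h7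
  exact h7.symm

/-- the partition -/
theorem Phi.uniq [Finite V] (h : Phi q e G) (w : Wd q)
    (hmax : ∀ e' : B, e' ≠ 0 → (Sl q e').ncard ≤ (Sl q e).ncard) {v s t : V} (hv : v ≠ 0)
    (hs : G s = e) (ht : G t = e) (h1 : q s v = 0) (h2 : q t v = 0) : s = t := by
  by_cases hve : G v = e
  · rw [h.comm_eq w hs hve h1, h.comm_eq w ht hve h2]
  · have key : ∀ s, G s = e → q s v = 0 → G (v + s) = G v + e := by
      intro s hs h1
      rw [h.polar w, hs, h1, add_zero]
    have h3 := key s hs h1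
    have h4 := key t ht h2
    have h5 : G v + e ≠ e := by
      intro h0
      exact hv (h.zero_eq w (add_eq_right.1 h0))
    have h6 := h.inj w hmax (c := v + s) (c' := v + t) (by rw [h3]; exact h5)
      (by rw [h4]; exact h5) (by rw [h3, h4])
    exact add_left_cancel h6

end Pool.Agent.HLIN
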